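import Pool.Agent.H65k.Limit

set_option autoImplicit false
set_option linter.unusedSectionVars false

/-!
From integrals to Kneser's weighted sums.
-/

open MeasureTheory Metric Set Topology Filter
open scoped RealInnerProductSpace

namespace Pool.Agent.H65k

section lim

variable {n : ℕ} {X : Type*} [NormedAddCommGroup X] [InnerProductSpace ℝ X]
  [FiniteDimensional ℝ X] [MeasurableSpace X] [BorelSpace X]

lemma mult_cast (ρ : Fin n → ℝ) (p : Fin n → X) (x : X) :
    (mult ρ p x : ℝ) = ∑ i, (closedBall (p i) (ρ i)).indicator (fun _ => (1 : ℝ)) x := by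
  unfold mult
  rw [Finset.card_filter]
  push_cast
  refine Finset.sum_congr rfl fun j _ => ?_
  simp [indicator, mem_closedBall]

lemma measurable_mult (ρ : Fin n → ℝ) (p : Fin n → X) : Measurable (mult ρ p) := by
  have h : mult ρ p = fun x => ∑ i, (closedBall (p i) (ρ i)).indicator (fun _ => (1 : ℕ)) x := by
    funext x
    unfold mult
    rw [Finset.card_filter]
    refine Finset.sum_congr rfl fun j _ => ?_
    simp [indicator, mem_closedBall]
  rw [h]
  exact Finset.measurable_fun_sum _ fun i _ => measurable_const.indicator isClosed_closedBall.measurableSet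

/-- the set of points of multiplicity at least `k + 1`. -/
def lev (ρ : Fin n → ℝ) (p : Fin n → X) (k : ℕ) : Set X := {x | k + 1 ≤ mult ρ p x}

lemma measurableSet_lev (ρ : Fin n → ℝ) (p : Fin n → X) (k : ℕ) : MeasurableSet (lev ρ p k) :=
  measurableSet_le measurable_const (measurable_mult ρ p)

lemma lev_finite (ρ : Fin n → ℝ) (p : Fin n → X) (k : ℕ) : volume (lev ρ p k) < ⊤ := by
  have h : lev ρ p k ⊆ ⋃ i, closedBall (p i) (ρ i) := by
    intro x hx
    have h1 : 0 < mult ρ p x := lt_of_lt_of_le (Nat.succ_pos k) hx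
    obtain ⟨i, hi⟩ := Finset.card_pos.1 h1
    exact mem_iUnion.2 ⟨i, (Finset.mem_filter.1 hi).2⟩
  refine (measure_mono h).trans_lt ?_
  refine (measure_iUnion_fintype_le _ _).trans_lt ?_
  exact ENNReal.sum_lt_top.2 fun i _ => measure_closedBall_lt_top

lemma pointwise_min (m N : ℕ) :
    -max (m : ℝ) 0 + max ((m : ℝ) - N) 0 = -∑ k ∈ Finset.range m, if k + 1 ≤ N then (1 : ℝ) else 0 := by
  induction m with
  | zero => simp
  | succ m ih =>
    rw [Finset.sum_range_succ, neg_add, ← ih]
    have hm : (0 : ℝ) ≤ m := Nat.cast_nonneg m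
    rw [max_eq_left hm, max_eq_left (Nat.cast_nonneg (m + 1))]
    split_ifs with h
    · have h1 : ((m : ℝ) + 1) ≤ N := by exact_mod_cast h
      rw [max_eq_right (by push_cast; linarith), max_eq_right (by linarith)]
      push_cast; ring
    · have h1 : (N : ℝ) ≤ m := by exact_mod_cast Nat.lt_succ_iff.1 (not_le.1 h)
      rw [max_eq_left (by push_cast; linarith), max_eq_left (by linarith)]
      push_cast; ring

lemma int_eq (ρ : Fin n → ℝ) (p : Fin n → X) (m : ℕ) :
    ∫ x : X, (-max (m : ℝ) 0 + max ((m : ℝ) - mult ρ p x) 0)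
      = -∑ k ∈ Finset.range m, (volume (lev ρ p k)).toReal := by
  have h1 : ∀ x : X, -max (m : ℝ) 0 + max ((m : ℝ) - mult ρ p x) 0
      = -∑ k ∈ Finset.range m, (lev ρ p k).indicator (fun _ => (1 : ℝ)) x := by
    intro x
    rw [pointwise_min]
    congr 1
    refine Finset.sum_congr rfl fun k _ => ?_
    simp [indicator, lev]
  simp_rw [h1]
  rw [integral_neg, integral_finsetSum]
  · congr 1
    refine Finset.sum_congr rfl fun k _ => ?_
    rw [integral_indicator (measurableSet_lev ρ p k)]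
    simp [Measure.real]
  · intro k _
    rw [integrable_indicator_iff (measurableSet_lev ρ p k)]
    exact integrableOn_const (lev_finite ρ p k).ne

lemma sum_total (ρ : Fin n → ℝ) (p : Fin n → X) :
    ∑ k ∈ Finset.range n, (volume (lev ρ p k)).toReal = ∑ i, (volume (closedBall (0 : X) (ρ i))).toReal := by
  have h1 := int_eq ρ p n
  have h2 : ∀ x : X, -max (n : ℝ) 0 + max ((n : ℝ) - mult ρ p x) 0
      = -∑ i, (closedBall (p i) (ρ i)).indicator (fun _ => (1 : ℝ)) x := by
    intro x
    rw [← mult_cast]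
    have h3 : (mult ρ p x : ℝ) ≤ n := by
      have : mult ρ p x ≤ n := by
        unfold mult
        exact (Finset.card_filter_le _ _).trans (by simp)
      exact_mod_cast this
    rw [max_eq_left (Nat.cast_nonneg n), max_eq_left (by linarith)]
    ring
  simp_rw [h2] at h1
  rw [integral_neg, integral_finsetSum] at h1
  · have h4 : ∀ i, ∫ x : X, (closedBall (p i) (ρ i)).indicator (fun _ => (1 : ℝ)) x
        = (volume (closedBall (0 : X) (ρ i))).toReal := by
      intro i
      rw [integral_indicator isClosed_closedBall.measurableSet]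
      simp only [integral_const, Measure.real, Measure.restrict_apply MeasurableSet.univ, univ_inter,
        smul_eq_mul, mul_one]
      rw [Measure.addHaar_closedBall_center]
    simp_rw [h4] at h1
    linarith
  · intro k _
    rw [integrable_indicator_iff isClosed_closedBall.measurableSet]
    exact integrableOn_const measure_closedBall_lt_top.ne

lemma abel (n : ℕ) (τ a b : ℕ → ℝ) (hτ : ∀ k, k + 1 < n → τ (k + 1) ≤ τ k)
    (hle : ∀ m, m ≤ n → ∑ k ∈ Finset.range m, a k ≤ ∑ k ∈ Finset.range m, b k)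
    (heq : ∑ k ∈ Finset.range n, a k = ∑ k ∈ Finset.range n, b k) :
    ∑ k ∈ Finset.range n, τ k * a k ≤ ∑ k ∈ Finset.range n, τ k * b k := by
  rcases Nat.eq_zero_or_pos n with rfl | hn
  · simp
  have key : ∀ m, m + 1 ≤ n → τ m * (∑ k ∈ Finset.range (m + 1), (b k - a k))
      ≤ ∑ k ∈ Finset.range (m + 1), τ k * (b k - a k) := by
    intro m
    induction m with
    | zero => intro _; simp
    | succ m ih =>
      intro hm
      have h1 := ih (by omega)
      rw [Finset.sum_range_succ, Finset.sum_range_succ (fun k => τ k * (b k - a k))]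
      have h2 : 0 ≤ ∑ k ∈ Finset.range (m + 1), (b k - a k) := by
        rw [Finset.sum_sub_distrib]
        linarith [hle (m + 1) (by omega)]
      have h3 := hτ m (by omega)
      nlinarith
  have h1 := key (n - 1) (by omega)
  have h2 : n - 1 + 1 = n := by omega
  rw [h2, Finset.sum_sub_distrib, heq, sub_self, mul_zero] at h1
  have h3 : ∑ k ∈ Finset.range n, τ k * (b k - a k)
      = ∑ k ∈ Finset.range n, τ k * b k - ∑ k ∈ Finset.range n, τ k * a k := by
    rw [← Finset.sum_sub_distrib]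
    exact Finset.sum_congr rfl fun k _ => by ring
  linarith

/-- Kneser's weighted inequality from the comparison of the functionals `J`. -/
theorem weighted_of_Jle (ρ : Fin n → ℝ) (hρ : ∀ i, 0 < ρ i) (p q : Fin n → X) (h : Jle ρ p q)
    (τ : Fin n → ℝ) (hτ : Antitone τ) :
    ∑ k : Fin n, τ k * (volume {x : X | k.val + 1 ≤
        (Finset.univ.filter (fun i => dist x (q i) ≤ ρ i)).card}).toReal
      ≤ ∑ k : Fin n, τ k * (volume {x : X | k.val + 1 ≤
        (Finset.univ.filter (fun i => dist x (p i) ≤ ρ i)).card}).toReal := by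
  set τ' : ℕ → ℝ := fun k => if h : k < n then τ ⟨k, h⟩ else 0 with hτ'
  have e : ∀ r : Fin n → X, ∑ k : Fin n, τ k * (volume {x : X | k.val + 1 ≤
        (Finset.univ.filter (fun i => dist x (r i) ≤ ρ i)).card}).toReal
      = ∑ k ∈ Finset.range n, τ' k * (volume (lev ρ r k)).toReal := by
    intro r
    rw [Finset.sum_range]
    refine Finset.sum_congr rfl fun k _ => ?_
    simp only [hτ', k.isLt, dif_pos]
    rfl
  rw [e p, e q]
  refine abel n τ' _ _ ?_ ?_ ?_
  · intro k hk
    simp only [hτ', hk, (Nat.lt_succ_self k).trans hk, dif_pos]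
    exact hτ (Fin.mk_le_mk.2 (Nat.le_succ k))
  · intro m _
    have h1 := int_le ρ hρ p q h m
    rw [int_eq, int_eq] at h1
    linarith
  · rw [sum_total, sum_total]

end lim

/-- the rank case. -/
theorem Jle_of_rank {d n : ℕ} (p q : Fin n → EuclideanSpace ℝ (Fin d)) (ρ : Fin n → ℝ)
    (hpq : ∀ i j, dist (q i) (q j) ≤ dist (p i) (p j))
    (hr : Module.finrank ℝ (vectorSpan ℝ (Set.range fun i => (p i, q i))) ≤ d + 2) (i₀ : Fin n) :
    Jle ρ p q := by
  intro φ M hφ hM hφ1 hφ' hM''
  refine J_contract hφ hM hφ1 hφ' hM'' ρ (iota (EuclideanSpace ℝ (Fin d))) p q ?_ ?_ i₀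
  · intro i j
    rw [← dist_eq_norm, ← dist_eq_norm]
    exact hpq i j
  · have h1 : jointSpan p q ≤ vectorSpan ℝ (Set.range fun i => (p i, q i)) := by
      refine Submodule.span_le.2 ?_
      rintro z ⟨i, j, rfl⟩
      exact vsub_mem_vectorSpan ℝ (mem_range_self i) (mem_range_self j)
    have h2 : Module.finrank ℝ (WithLp 2 (EuclideanSpace ℝ (Fin d) × W2)) = d + 2 := by
      rw [LinearEquiv.finrank_eq (WithLp.linearEquiv 2 ℝ (EuclideanSpace ℝ (Fin d) × W2))]
      simp [Module.finrank_prod]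
    rw [h2]
    exact (Submodule.finrank_mono h1).trans hr

/-- the path case. -/
theorem Jle_of_path {d n : ℕ} (p q : Fin n → EuclideanSpace ℝ (Fin d)) (ρ : Fin n → ℝ)
    (c : ℝ → Fin n → WithLp 2 (EuclideanSpace ℝ (Fin d) × EuclideanSpace ℝ (Fin 2)))
    (hc : ContinuousOn c (Icc 0 1)) (hd : ∀ t ∈ Ioo (0 : ℝ) 1, DifferentiableAt ℝ c t)
    (h0 : ∀ i, c 0 i = WithLp.toLp 2 (p i, 0)) (h1 : ∀ i, c 1 i = WithLp.toLp 2 (q i, 0))
    (hdist : ∀ i j, AntitoneOn (fun t => dist (c t i) (c t j)) (Icc 0 1)) :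
    Jle ρ p q := by
  intro φ M hφ hM hφ1 hφ' hM''
  have h := J_mono hφ hM hφ1 hφ' hM'' ρ c hc hd (fun i j s hs t ht hst => by
    have := hdist i j hs ht hst
    simp only [dist_eq_norm] at this
    exact pow_le_pow_left₀ (norm_nonneg _) this 2)
  have e0 : c 0 = fun i => iota (EuclideanSpace ℝ (Fin d)) (p i) := funext h0
  have e1 : c 1 = fun i => iota (EuclideanSpace ℝ (Fin d)) (q i) := funext h1
  rwa [e0, e1] at h

theorem kneser_main (d n : ℕ) (p q : Fin n → EuclideanSpace ℝ (Fin d)) (ρ : Fin n → ℝ)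
    (hρ : ∀ i, 0 < ρ i) (hpq : ∀ i j, dist (q i) (q j) ≤ dist (p i) (p j))
    (h : d ≤ 2 ∨ n ≤ d + 3 ∨
      Module.finrank ℝ (vectorSpan ℝ (Set.range fun i => (p i, q i))) ≤ d + 2 ∨
      ∃ c : ℝ → Fin n → WithLp 2 (EuclideanSpace ℝ (Fin d) × EuclideanSpace ℝ (Fin 2)),
        ContinuousOn c (Set.Icc 0 1) ∧ (∀ t ∈ Set.Ioo (0 : ℝ) 1, DifferentiableAt ℝ c t) ∧
        (∀ i, c 0 i = WithLp.toLp 2 (p i, 0)) ∧ (∀ i, c 1 i = WithLp.toLp 2 (q i, 0)) ∧
        ∀ i j, AntitoneOn (fun t => dist (c t i) (c t j)) (Set.Icc 0 1))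
    (τ : Fin n → ℝ) (hτ : Antitone τ) :
    ∑ k : Fin n, τ k *
        (MeasureTheory.volume
          {x : EuclideanSpace ℝ (Fin d) |
            k.val + 1 ≤ (Finset.univ.filter (fun i => dist x (q i) ≤ ρ i)).card}).toReal
      ≤
    ∑ k : Fin n, τ k *
        (MeasureTheory.volume
          {x : EuclideanSpace ℝ (Fin d) |
            k.val + 1 ≤ (Finset.univ.filter (fun i => dist x (p i) ≤ ρ i)).card}).toReal := by
  rcases Nat.eq_zero_or_pos n with rfl | hn
  · simp
  refine weighted_of_Jle ρ hρ p q ?_ τ hτ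
  have hrank : (Module.finrank ℝ (vectorSpan ℝ (Set.range fun i => (p i, q i))) ≤ d + 2 ∨
      ∃ c : ℝ → Fin n → WithLp 2 (EuclideanSpace ℝ (Fin d) × EuclideanSpace ℝ (Fin 2)),
        ContinuousOn c (Set.Icc 0 1) ∧ (∀ t ∈ Set.Ioo (0 : ℝ) 1, DifferentiableAt ℝ c t) ∧
        (∀ i, c 0 i = WithLp.toLp 2 (p i, 0)) ∧ (∀ i, c 1 i = WithLp.toLp 2 (q i, 0)) ∧
        ∀ i j, AntitoneOn (fun t => dist (c t i) (c t j)) (Set.Icc 0 1)) := by
    rcases h with h | h | h | h
    · left
      refine (Submodule.finrank_le _).trans ?_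
      rw [Module.finrank_prod]
      simp
      omega
    · left
      have hcard : Fintype.card (Fin n) = (n - 1) + 1 := by simp; omega
      have := finrank_vectorSpan_range_le ℝ (fun i : Fin n => (p i, q i)) hcard
      omega
    · left; exact h
    · right; exact h
  rcases hrank with h | ⟨c, hc, hd, h0, h1, hdist⟩
  · exact Jle_of_rank p q ρ hpq h ⟨0, hn⟩
  · exact Jle_of_path p q ρ c hc hd h0 h1 hdist

end Pool.Agent.H65k
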