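import Pool.Agent.H65k.Polar

set_option autoImplicit false
set_option linter.unusedSectionVars false

/-!
Smoothings of the indicator of `(-∞,0]` and of `-max (m - s) 0`, and the limit.
-/

open MeasureTheory Metric Set Topology Filter
open scoped RealInnerProductSpace

namespace Pool.Agent.H65k

/-- smoothed indicator of `(-∞, 0]`. -/
noncomputable def phk (k : ℕ) (t : ℝ) : ℝ := Real.smoothTransition (1 - ((k : ℝ) + 1) * t)

lemma phk_contDiff (k : ℕ) : ContDiff ℝ 2 (phk k) := by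
  unfold phk
  exact (Real.smoothTransition.contDiff (n := 2)).comp (by fun_prop)

lemma phk_antitone (k : ℕ) : Antitone (phk k) := by
  intro s t hst
  unfold phk
  apply Real.smoothTransition.monotone
  have : (0 : ℝ) ≤ (k : ℝ) + 1 := by positivity
  nlinarith

lemma phk_deriv (k : ℕ) (t : ℝ) : deriv (phk k) t ≤ 0 := (phk_antitone k).deriv_nonpos

lemma phk_zero (k : ℕ) {t : ℝ} (ht : 1 ≤ ((k : ℝ) + 1) * t) : phk k t = 0 := by
  unfold phk
  exact Real.smoothTransition.zero_of_nonpos (by linarith)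

lemma phk_zero' (k : ℕ) (t : ℝ) (ht : 1 ≤ t) : phk k t = 0 := by
  refine phk_zero k ?_
  have : (1 : ℝ) ≤ (k : ℝ) + 1 := by
    have : (0 : ℝ) ≤ k := Nat.cast_nonneg k
    linarith
  nlinarith

lemma phk_one (k : ℕ) {t : ℝ} (ht : t ≤ 0) : phk k t = 1 := by
  unfold phk
  apply Real.smoothTransition.one_of_one_le
  have : (0 : ℝ) ≤ (k : ℝ) + 1 := by positivity
  nlinarith

lemma phk_nonneg (k : ℕ) (t : ℝ) : 0 ≤ phk k t := Real.smoothTransition.nonneg _
lemma phk_le_one (k : ℕ) (t : ℝ) : phk k t ≤ 1 := Real.smoothTransition.le_one _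

lemma phk_tendsto (t : ℝ) : Tendsto (fun k => phk k t) atTop (𝓝 (if t ≤ 0 then 1 else 0)) := by
  split_ifs with h
  · simp only [phk_one _ h]; exact tendsto_const_nhds
  · have ht : 0 < t := not_le.1 h
    refine tendsto_const_nhds.congr' ?_
    filter_upwards [eventually_ge_atTop (Nat.ceil (1 / t))] with k hk
    symm
    refine phk_zero k ?_
    have h1 : 1 / t ≤ (k : ℝ) := (Nat.le_ceil _).trans (by exact_mod_cast hk)
    rw [div_le_iff₀ ht] at h1
    nlinarith

/-- smoothed `-max (m - s) 0`. -/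
noncomputable def Mk (m : ℝ) (k : ℕ) (s : ℝ) : ℝ :=
  -(Real.log (1 + Real.exp (((k : ℝ) + 1) * (m - s))) / ((k : ℝ) + 1))

lemma Mk_contDiff (m : ℝ) (k : ℕ) : ContDiff ℝ 2 (Mk m k) := by
  unfold Mk
  have h : ContDiff ℝ 2 (fun s => 1 + Real.exp (((k : ℝ) + 1) * (m - s))) := by fun_prop
  exact ((h.log fun s => by positivity).div_const _).neg

lemma Mk_deriv (m : ℝ) (k : ℕ) (s : ℝ) :
    deriv (Mk m k) s = 1 - 1 / (1 + Real.exp (((k : ℝ) + 1) * (m - s))) := by
  have hk : (0 : ℝ) < (k : ℝ) + 1 := by positivity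
  have h1 : HasDerivAt (fun s => ((k : ℝ) + 1) * (m - s)) (((k : ℝ) + 1) * (-1)) s := by
    have := ((hasDerivAt_id s).const_sub m).const_mul ((k : ℝ) + 1)
    simpa using this
  have h2 := (h1.exp).const_add 1
  have h3 := (h2.log (by positivity)).div_const ((k : ℝ) + 1)
  have h4 := h3.neg
  have h5 : deriv (Mk m k) s = _ := h4.deriv
  rw [h5]
  have : (1 + Real.exp (((k : ℝ) + 1) * (m - s))) ≠ 0 := by positivity
  field_simp
  ring

lemma Mk_deriv2 (m : ℝ) (k : ℕ) (s : ℝ) : deriv (deriv (Mk m k)) s ≤ 0 := by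
  have h : Antitone (deriv (Mk m k)) := by
    intro s t hst
    rw [Mk_deriv, Mk_deriv]
    have hk : (0 : ℝ) < (k : ℝ) + 1 := by positivity
    have h1 : Real.exp (((k : ℝ) + 1) * (m - t)) ≤ Real.exp (((k : ℝ) + 1) * (m - s)) := by
      apply Real.exp_le_exp.2
      nlinarith
    have h2 : 1 / (1 + Real.exp (((k : ℝ) + 1) * (m - s))) ≤ 1 / (1 + Real.exp (((k : ℝ) + 1) * (m - t))) := by
      apply one_div_le_one_div_of_le (by positivity)
      linarith
    linarith
  exact h.deriv_nonpos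

lemma Mk_bounds (m : ℝ) (k : ℕ) (s : ℝ) :
    -max (m - s) 0 - Real.log 2 / ((k : ℝ) + 1) ≤ Mk m k s ∧ Mk m k s ≤ -max (m - s) 0 := by
  have hk : (0 : ℝ) < (k : ℝ) + 1 := by positivity
  set K := (k : ℝ) + 1 with hK
  set a := m - s with ha
  have hlow : K * max a 0 ≤ Real.log (1 + Real.exp (K * a)) := by
    rcases le_total a 0 with h | h
    · rw [max_eq_right h, mul_zero]
      apply Real.log_nonneg
      have := Real.exp_pos (K * a)
      linarith
    · rw [max_eq_left h]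
      rw [Real.le_log_iff_exp_le (by positivity)]
      linarith
  have hup : Real.log (1 + Real.exp (K * a)) ≤ Real.log 2 + K * max a 0 := by
    rw [← Real.log_exp (K * max a 0), ← Real.log_mul (by norm_num) (Real.exp_pos _).ne']
    apply Real.log_le_log (by positivity)
    have h1 : Real.exp (K * a) ≤ Real.exp (K * max a 0) :=
      Real.exp_le_exp.2 (mul_le_mul_of_nonneg_left (le_max_left _ _) hk.le)
    have h2 : 1 ≤ Real.exp (K * max a 0) :=
      Real.one_le_exp (mul_nonneg hk.le (le_max_right _ _))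
    linarith
  unfold Mk
  rw [← hK, ← ha]
  constructor
  · have : Real.log (1 + Real.exp (K * a)) / K ≤ max a 0 + Real.log 2 / K := by
      rw [div_le_iff₀ hk, add_mul (max a 0), div_mul_cancel₀ _ hk.ne']
      linarith
    linarith
  · have : max a 0 ≤ Real.log (1 + Real.exp (K * a)) / K := by
      rw [le_div_iff₀ hk]; linarith
    linarith

lemma Mk_abs (m : ℝ) (k : ℕ) (s : ℝ) : |Mk m k s| ≤ |m| + |s| + 1 := by
  obtain ⟨h1, h2⟩ := Mk_bounds m k s
  have hk : (1 : ℝ) ≤ (k : ℝ) + 1 := by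
    have : (0 : ℝ) ≤ k := Nat.cast_nonneg k
    linarith
  have hl : Real.log 2 / ((k : ℝ) + 1) ≤ 1 := by
    have : Real.log 2 ≤ 1 := by
      have := Real.log_two_lt_d9
      linarith
    rw [div_le_iff₀ (by linarith)]
    linarith
  have h3 : max (m - s) 0 ≤ |m| + |s| := by
    apply max_le
    · have := le_abs_self m
      have := neg_abs_le s
      linarith
    · positivity
  have h4 : 0 ≤ max (m - s) 0 := le_max_right _ _
  rw [abs_le]
  constructor <;> linarith

lemma Mk_tendsto (m : ℝ) {s : ℕ → ℝ} {s₀ : ℝ} (hs : Tendsto s atTop (𝓝 s₀)) :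
    Tendsto (fun k => Mk m k (s k)) atTop (𝓝 (-max (m - s₀) 0)) := by
  have h1 : Tendsto (fun k => -max (m - s k) 0) atTop (𝓝 (-max (m - s₀) 0)) := by
    have : Continuous fun s : ℝ => -max (m - s) 0 := by fun_prop
    exact (this.tendsto s₀).comp hs
  have h2 : Tendsto (fun k : ℕ => Real.log 2 / ((k : ℝ) + 1)) atTop (𝓝 0) := by
    have := (tendsto_one_div_add_atTop_nhds_zero_nat (𝕜 := ℝ)).const_mul (Real.log 2)
    rw [mul_zero] at this
    refine this.congr fun k => ?_
    rw [mul_one_div]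
  have h3 := h1.sub h2
  rw [sub_zero] at h3
  exact tendsto_of_tendsto_of_tendsto_of_le_of_le h3 h1 (fun k => (Mk_bounds m k (s k)).1)
    (fun k => (Mk_bounds m k (s k)).2)

section lim

variable {n : ℕ} {X : Type*} [NormedAddCommGroup X] [InnerProductSpace ℝ X]
  [FiniteDimensional ℝ X] [MeasurableSpace X] [BorelSpace X]

/-- multiplicity function. -/
noncomputable def mult (ρ : Fin n → ℝ) (p : Fin n → X) (x : X) : ℕ :=
  (Finset.univ.filter (fun i => dist x (p i) ≤ ρ i)).card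

lemma sum_tendsto (ρ : Fin n → ℝ) (hρ : ∀ i, 0 < ρ i) (p : Fin n → X) (x : X) :
    Tendsto (fun k => ∑ j, phk k (‖x - p j‖ ^ 2 - ρ j ^ 2)) atTop (𝓝 (mult ρ p x : ℝ)) := by
  have h1 : (mult ρ p x : ℝ) = ∑ j, if ‖x - p j‖ ^ 2 - ρ j ^ 2 ≤ 0 then (1 : ℝ) else 0 := by
    unfold mult
    rw [Finset.card_filter]
    push_cast
    refine Finset.sum_congr rfl fun j _ => ?_
    have : dist x (p j) ≤ ρ j ↔ ‖x - p j‖ ^ 2 - ρ j ^ 2 ≤ 0 := by
      rw [dist_eq_norm, sub_nonpos, sq_le_sq₀ (norm_nonneg _) (hρ j).le]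
    simp only [this]
  rw [h1]
  exact tendsto_finsetSum _ fun j _ => phk_tendsto _

lemma lim_int (ρ : Fin n → ℝ) (hρ : ∀ i, 0 < ρ i) (p : Fin n → X) (m : ℝ) :
    Tendsto (fun k => ∫ x : X, (Mk m k 0 - Mk m k (∑ j, phk k (‖x - p j‖ ^ 2 - ρ j ^ 2)))) atTop
      (𝓝 (∫ x : X, (-max m 0 + max (m - mult ρ p x) 0))) := by
  set R : ℝ := ‖p‖ + (∑ i, |ρ i|) + 1 with hR
  set C : ℝ := (|m| + 1) + (|m| + n + 1) with hC
  have hC0 : 0 ≤ C := by positivity
  refine tendsto_integral_of_dominated_convergence ((closedBall (0 : X) R).indicator fun _ => C) ?_ ?_ ?_ ?_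
  · intro k
    have hc : Continuous (fun x : X => Mk m k 0 - Mk m k (∑ j, phk k (‖x - p j‖ ^ 2 - ρ j ^ 2))) := by
      have h1 : Continuous (Mk m k) := (Mk_contDiff m k).continuous
      have h2 : Continuous (phk k) := (phk_contDiff k).continuous
      fun_prop
    exact hc.aestronglyMeasurable
  · rw [integrable_indicator_iff isClosed_closedBall.measurableSet]
    exact integrableOn_const (isCompact_closedBall (0 : X) R).measure_lt_top.ne
  · intro k
    refine Eventually.of_forall fun x => ?_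
    by_cases hx : x ∈ closedBall (0 : X) R
    · rw [indicator_of_mem hx]
      have h1 := Mk_abs m k 0
      have h2 := Mk_abs m k (∑ j, phk k (‖x - p j‖ ^ 2 - ρ j ^ 2))
      have h3 : |∑ j, phk k (‖x - p j‖ ^ 2 - ρ j ^ 2)| ≤ n := by
        rw [abs_of_nonneg (Finset.sum_nonneg fun _ _ => phk_nonneg _ _)]
        calc ∑ j, phk k (‖x - p j‖ ^ 2 - ρ j ^ 2) ≤ ∑ _j : Fin n, (1 : ℝ) :=
              Finset.sum_le_sum fun _ _ => phk_le_one _ _
          _ = n := by simp
      rw [Real.norm_eq_abs]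
      have h4 := abs_sub (Mk m k 0) (Mk m k (∑ j, phk k (‖x - p j‖ ^ 2 - ρ j ^ 2)))
      rw [abs_zero] at h1
      rw [hC]
      linarith
    · rw [indicator_of_notMem hx]
      have hx' : R < ‖x‖ := by simpa using hx
      have : ∀ j, phk k (‖x - p j‖ ^ 2 - ρ j ^ 2) = 0 := by
        intro j
        apply phk_zero'
        have h1 : ‖p j‖ ≤ ‖p‖ := norm_le_pi_norm p j
        have h4 : |ρ j| ≤ ∑ i, |ρ i| :=
          Finset.single_le_sum (f := fun i => |ρ i|) (fun _ _ => abs_nonneg _) (Finset.mem_univ j)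
        have h5 : |ρ j| + 1 < ‖x - p j‖ := by
          have := norm_sub_norm_le x (p j)
          linarith
        have h7 : 0 ≤ |ρ j| := abs_nonneg _
        have h8 : ρ j ^ 2 = |ρ j| ^ 2 := (sq_abs _).symm
        rw [h8]
        nlinarith
      simp [this]
  · refine Eventually.of_forall fun x => ?_
    have h1 := Mk_tendsto m (tendsto_const_nhds (x := (0 : ℝ)) (f := atTop (α := ℕ)))
    rw [sub_zero] at h1
    have h2 := Mk_tendsto m (sum_tendsto ρ hρ p x)
    have := h1.sub h2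
    rw [sub_neg_eq_add] at this
    exact this

/-- The abstract comparison hypothesis: `J` does not decrease from `p` to `q`. -/
def Jle (ρ : Fin n → ℝ) (p q : Fin n → X) : Prop :=
  ∀ φ M : ℝ → ℝ, ContDiff ℝ 2 φ → ContDiff ℝ 2 M → (∀ t, 1 ≤ t → φ t = 0) →
    (∀ t, deriv φ t ≤ 0) → (∀ s, deriv (deriv M) s ≤ 0) →
    J φ M ρ (fun i => iota X (p i)) ≤ J φ M ρ (fun i => iota X (q i))

lemma int_le (ρ : Fin n → ℝ) (hρ : ∀ i, 0 < ρ i) (p q : Fin n → X) (h : Jle ρ p q) (m : ℝ) :
    ∫ x : X, (-max m 0 + max (m - mult ρ p x) 0) ≤ ∫ x : X, (-max m 0 + max (m - mult ρ q x) 0) := by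
  refine le_of_tendsto_of_tendsto' (lim_int ρ hρ p m) (lim_int ρ hρ q m) fun k => ?_
  have h1 := h (phk k) (Mk m k) (phk_contDiff k) (Mk_contDiff m k) (phk_zero' k) (phk_deriv k)
    (Mk_deriv2 m k)
  rw [J_polar (phk_contDiff k) (Mk_contDiff m k) (phk_zero' k),
    J_polar (phk_contDiff k) (Mk_contDiff m k) (phk_zero' k)] at h1
  exact le_of_mul_le_mul_left h1 kap_pos

end lim

end Pool.Agent.H65k
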