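import Pool.Agent.H65k.Param

set_option autoImplicit false
set_option linter.unusedSectionVars false

/-!
The functional `J` and its monotonicity along contracting paths.
-/

open MeasureTheory Metric Set Topology
open scoped RealInnerProductSpace

namespace Pool.Agent.H65k

variable {n : ℕ} {V : Type*} [NormedAddCommGroup V] [InnerProductSpace ℝ V]

/-- power of the point `y` with respect to the `i`-th sphere. -/
noncomputable def pw (ρ : Fin n → ℝ) (i : Fin n) (z : (Fin n → V) × V) : ℝ :=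
  ‖z.2 - z.1 i‖ ^ 2 - ρ i ^ 2

/-- the smoothed multiplicity. -/
noncomputable def sg (φ : ℝ → ℝ) (ρ : Fin n → ℝ) (z : (Fin n → V) × V) : ℝ :=
  ∑ j, φ (pw ρ j z)

/-- the integrand `A_i`. -/
noncomputable def Ai (φ M : ℝ → ℝ) (ρ : Fin n → ℝ) (i : Fin n) (z : (Fin n → V) × V) : ℝ :=
  deriv M (sg φ ρ z) * deriv φ (pw ρ i z)

lemma contDiff_deriv_of {f : ℝ → ℝ} (hf : ContDiff ℝ 2 f) : ContDiff ℝ 1 (deriv f) := by
  have : ContDiff ℝ (1 + 1) f := by norm_num; exact hf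
  exact (contDiff_succ_iff_deriv.1 this).2.2

lemma contDiff_pw (ρ : Fin n → ℝ) (i : Fin n) :
    ContDiff ℝ 2 (pw (V := V) ρ i) := by
  unfold pw
  refine ContDiff.sub ?_ contDiff_const
  refine ContDiff.norm_sq ℝ ?_
  refine contDiff_snd.sub ?_
  exact (contDiff_apply ℝ V i).comp contDiff_fst

lemma contDiff_sg {φ : ℝ → ℝ} (hφ : ContDiff ℝ 2 φ) (ρ : Fin n → ℝ) :
    ContDiff ℝ 2 (sg (V := V) φ ρ) := by
  unfold sg
  exact ContDiff.sum fun j _ => hφ.comp (contDiff_pw ρ j)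

lemma contDiff_Ai {φ M : ℝ → ℝ} (hφ : ContDiff ℝ 2 φ) (hM : ContDiff ℝ 2 M) (ρ : Fin n → ℝ)
    (i : Fin n) : ContDiff ℝ 1 (Ai (V := V) φ M ρ i) := by
  unfold Ai
  refine ContDiff.mul ?_ ?_
  · exact (contDiff_deriv_of hM).comp ((contDiff_sg hφ ρ).of_le (by norm_num))
  · exact (contDiff_deriv_of hφ).comp ((contDiff_pw ρ i).of_le (by norm_num))

/-- derivative of the power along the line `c + s v`. -/
lemma hasDerivAt_pw (ρ : Fin n → ℝ) (i : Fin n) (c v : Fin n → V) (y : V) :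
    HasDerivAt (fun s : ℝ => pw ρ i (c + s • v, y)) (2 * ⟪y - c i, - v i⟫) 0 := by
  have h1 : HasDerivAt (fun s : ℝ => y - (c i + s • v i)) (- v i) 0 := by
    have h2 : HasDerivAt (fun s : ℝ => s • v i) ((1 : ℝ) • v i) 0 :=
      (hasDerivAt_id (0 : ℝ)).smul_const (v i)
    have h3 := (h2.const_add (c i)).const_sub y
    simpa using h3
  have h4 := h1.norm_sq
  have h5 := h4.sub_const (ρ i ^ 2)
  simpa [pw] using h5

lemma hasDerivAt_comp_of {f : ℝ → ℝ} {f' : ℝ} {g : ℝ → ℝ} {g' x : ℝ}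
    (hf : HasDerivAt f f' (g x)) (hg : HasDerivAt g g' x) :
    HasDerivAt (fun s => f (g s)) (f' * g') x := hf.comp x hg

/-- the explicit derivative of `A_i`. -/
noncomputable def dA (φ M : ℝ → ℝ) (ρ : Fin n → ℝ) (i : Fin n) (c v : Fin n → V) (y : V) : ℝ :=
  deriv (deriv M) (sg φ ρ (c, y)) * (∑ j, deriv φ (pw ρ j (c, y)) * (2 * ⟪y - c j, - v j⟫))
      * deriv φ (pw ρ i (c, y))
    + deriv M (sg φ ρ (c, y)) * (deriv (deriv φ) (pw ρ i (c, y)) * (2 * ⟪y - c i, - v i⟫))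

lemma D1_Ai {φ M : ℝ → ℝ} (hφ : ContDiff ℝ 2 φ) (hM : ContDiff ℝ 2 M) (ρ : Fin n → ℝ)
    (i : Fin n) (c v : Fin n → V) (y : V) :
    D1 (Ai φ M ρ i) c y v = dA φ M ρ i c v y := by
  have h0 : c + (0 : ℝ) • v = c := by simp
  have hline : HasDerivAt (fun s : ℝ => c + s • v) v 0 := by
    have h2 : HasDerivAt (fun s : ℝ => s • v) ((1 : ℝ) • v) 0 :=
      (hasDerivAt_id (0 : ℝ)).smul_const v
    simpa using h2.const_add c
  have h1 : HasDerivAt (fun s : ℝ => Ai φ M ρ i (c + s • v, y)) (D1 (Ai φ M ρ i) c y v) 0 := by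
    have hF := hasFDerivAt_D1 (contDiff_Ai hφ hM ρ i) c y
    rw [← h0] at hF
    have := hF.comp_hasDerivAt (0 : ℝ) hline
    rw [h0] at this
    exact this
  have hpw : ∀ j, HasDerivAt (fun s : ℝ => pw ρ j (c + s • v, y)) (2 * ⟪y - c j, - v j⟫) 0 :=
    fun j => hasDerivAt_pw ρ j c v y
  have hφd : ∀ t, HasDerivAt φ (deriv φ t) t := fun t =>
    (hφ.differentiable (by norm_num) t).hasDerivAt
  have hMd : ∀ t, HasDerivAt (deriv M) (deriv (deriv M) t) t := fun t =>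
    ((contDiff_deriv_of hM).differentiable (by norm_num) t).hasDerivAt
  have hφdd : ∀ t, HasDerivAt (deriv φ) (deriv (deriv φ) t) t := fun t =>
    ((contDiff_deriv_of hφ).differentiable (by norm_num) t).hasDerivAt
  have hsg : HasDerivAt (fun s : ℝ => sg φ ρ (c + s • v, y))
      (∑ j, deriv φ (pw ρ j (c, y)) * (2 * ⟪y - c j, - v j⟫)) 0 := by
    unfold sg
    refine HasDerivAt.fun_sum fun j _ => ?_
    have := hasDerivAt_comp_of (g := fun s : ℝ => pw ρ j (c + s • v, y))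
      (hφd (pw ρ j (c + (0 : ℝ) • v, y))) (hpw j)
    rw [h0] at this
    exact this
  have h2 : HasDerivAt (fun s : ℝ => deriv M (sg φ ρ (c + s • v, y)))
      (deriv (deriv M) (sg φ ρ (c, y)) * (∑ j, deriv φ (pw ρ j (c, y)) * (2 * ⟪y - c j, - v j⟫))) 0 := by
    have := hasDerivAt_comp_of (hMd (sg φ ρ (c + (0 : ℝ) • v, y))) hsg
    rw [h0] at this
    exact this
  have h3 : HasDerivAt (fun s : ℝ => deriv φ (pw ρ i (c + s • v, y)))
      (deriv (deriv φ) (pw ρ i (c, y)) * (2 * ⟪y - c i, - v i⟫)) 0 := by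
    have := hasDerivAt_comp_of (g := fun s : ℝ => pw ρ i (c + s • v, y))
      (hφdd (pw ρ i (c + (0 : ℝ) • v, y))) (hpw i)
    rw [h0] at this
    exact this
  have h4 := h2.fun_mul h3
  rw [h0] at h4
  exact h1.unique h4

/-- pointwise positivity of the symmetrised derivative. -/
lemma pointwise_nonneg {φ M : ℝ → ℝ} (hφ' : ∀ t, deriv φ t ≤ 0)
    (hM'' : ∀ s, deriv (deriv M) s ≤ 0) (ρ : Fin n → ℝ) (c v : Fin n → V)
    (hcv : ∀ i j, ⟪c i - c j, v i - v j⟫ ≤ 0) (y : V) :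
    0 ≤ ∑ i, (dA φ M ρ i c v y - dA φ M ρ i c (fun _ => v i) y) := by
  set m2 := deriv (deriv M) (sg φ ρ (c, y)) with hm2
  set p : Fin n → ℝ := fun j => deriv φ (pw ρ j (c, y)) with hp
  have h1 : ∀ i, dA φ M ρ i c v y - dA φ M ρ i c (fun _ => v i) y
      = ∑ j, m2 * (p i * p j) * (2 * ⟪y - c j, v i - v j⟫) := by
    intro i
    unfold dA
    have e1 : m2 * (∑ j, p j * (2 * ⟪y - c j, - v j⟫)) * p i
        - m2 * (∑ j, p j * (2 * ⟪y - c j, - v i⟫)) * p i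
        = ∑ j, m2 * (p i * p j) * (2 * ⟪y - c j, v i - v j⟫) := by
      rw [Finset.mul_sum, Finset.mul_sum, Finset.sum_mul, Finset.sum_mul, ← Finset.sum_sub_distrib]
      refine Finset.sum_congr rfl fun j _ => ?_
      rw [inner_neg_right, inner_neg_right, inner_sub_right]
      ring
    rw [← e1]
    simp only [hm2, hp]
    ring
  simp_rw [h1]
  have h2 : ∑ i, ∑ j, m2 * (p i * p j) * (2 * ⟪y - c j, v i - v j⟫)
      = ∑ i, ∑ j, m2 * (p i * p j) * (2 * ⟪y - c i, v j - v i⟫) := by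
    rw [Finset.sum_comm]
    refine Finset.sum_congr rfl fun i _ => Finset.sum_congr rfl fun j _ => ?_
    ring
  have h3 : 2 * (∑ i, ∑ j, m2 * (p i * p j) * (2 * ⟪y - c j, v i - v j⟫))
      = ∑ i, ∑ j, m2 * (p i * p j) * (2 * ⟪c i - c j, v i - v j⟫) := by
    have : 2 * (∑ i, ∑ j, m2 * (p i * p j) * (2 * ⟪y - c j, v i - v j⟫))
      = (∑ i, ∑ j, m2 * (p i * p j) * (2 * ⟪y - c j, v i - v j⟫))
        + ∑ i, ∑ j, m2 * (p i * p j) * (2 * ⟪y - c i, v j - v i⟫) := by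
      rw [← h2]; ring
    rw [this, ← Finset.sum_add_distrib]
    refine Finset.sum_congr rfl fun i _ => ?_
    rw [← Finset.sum_add_distrib]
    refine Finset.sum_congr rfl fun j _ => ?_
    have e : ⟪y - c i, v j - v i⟫ = - ⟪y - c i, v i - v j⟫ := by
      rw [← inner_neg_right, neg_sub]
    have e2 : ⟪c i - c j, v i - v j⟫ = ⟪y - c j, v i - v j⟫ - ⟪y - c i, v i - v j⟫ := by
      rw [← inner_sub_left]; congr 1; abel
    rw [e, e2]; ring
  have h4 : 0 ≤ ∑ i, ∑ j, m2 * (p i * p j) * (2 * ⟪c i - c j, v i - v j⟫) := by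
    refine Finset.sum_nonneg fun i _ => Finset.sum_nonneg fun j _ => ?_
    have a1 : 0 ≤ p i * p j := mul_nonneg_of_nonpos_of_nonpos (hφ' _) (hφ' _)
    have a2 : m2 * (p i * p j) ≤ 0 := mul_nonpos_of_nonpos_of_nonneg (hM'' _) a1
    have a3 := hcv i j
    nlinarith
  linarith

variable [FiniteDimensional ℝ V] [MeasurableSpace V] [BorelSpace V]

/-- The functional `J`. -/
noncomputable def J (φ M : ℝ → ℝ) (ρ : Fin n → ℝ) (c : Fin n → V) : ℝ :=
  ∑ i, ∫ y : V, Ai φ M ρ i (c, y)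

omit [FiniteDimensional ℝ V] [MeasurableSpace V] [BorelSpace V] in
lemma deriv_zero_of {φ : ℝ → ℝ} (hφ1 : ∀ t, 1 ≤ t → φ t = 0) {t : ℝ} (ht : 1 < t) :
    deriv φ t = 0 := by
  have h1 : φ =ᶠ[𝓝 t] fun _ => (0 : ℝ) := by
    filter_upwards [lt_mem_nhds ht] with s hs
    exact hφ1 s hs.le
  rw [h1.deriv_eq, deriv_const]

omit [FiniteDimensional ℝ V] [MeasurableSpace V] [BorelSpace V] in
/-- the support of `A_i` in `y` is locally uniformly bounded. -/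
lemma supp_Ai {φ M : ℝ → ℝ} (hφ1 : ∀ t, 1 ≤ t → φ t = 0) (ρ : Fin n → ℝ)
    (c₀ : Fin n → V) : ∃ R : ℝ, ∀ i, ∀ c ∈ closedBall c₀ 1, ∀ y : V, R < ‖y‖ →
      Ai φ M ρ i (c, y) = 0 := by
  refine ⟨‖c₀‖ + 1 + (∑ i, |ρ i|) + 1, fun i c hc y hy => ?_⟩
  have h1 : ‖c i‖ ≤ ‖c₀‖ + 1 := by
    have : ‖c i‖ ≤ ‖c‖ := norm_le_pi_norm c i
    have h2 : ‖c‖ ≤ ‖c₀‖ + 1 := by
      have h3 : ‖c - c₀‖ ≤ 1 := by simpa [dist_eq_norm] using hc
      calc ‖c‖ = ‖c₀ + (c - c₀)‖ := by congr 1; abel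
        _ ≤ ‖c₀‖ + ‖c - c₀‖ := norm_add_le _ _
        _ ≤ _ := by linarith
    linarith
  have h4 : |ρ i| ≤ ∑ i, |ρ i| := Finset.single_le_sum (f := fun i => |ρ i|) (fun _ _ => abs_nonneg _) (Finset.mem_univ i)
  have h5 : |ρ i| + 1 < ‖y - c i‖ := by
    have := norm_sub_norm_le y (c i)
    linarith
  have h6 : 1 < pw ρ i (c, y) := by
    unfold pw
    have h7 : 0 ≤ |ρ i| := abs_nonneg _
    have h8 : ρ i ^ 2 = |ρ i| ^ 2 := (sq_abs _).symm
    rw [h8]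
    show 1 < ‖y - c i‖ ^ 2 - |ρ i| ^ 2
    nlinarith
  unfold Ai
  rw [deriv_zero_of hφ1 h6, mul_zero]

lemma param_Ai {φ M : ℝ → ℝ} (hφ : ContDiff ℝ 2 φ) (hM : ContDiff ℝ 2 M)
    (hφ1 : ∀ t, 1 ≤ t → φ t = 0) (ρ : Fin n → ℝ) (c : Fin n → V) (i : Fin n) :
    Integrable (D1 (Ai φ M ρ i) c) volume ∧ Integrable (fun y => Ai φ M ρ i (c, y)) volume ∧
      HasFDerivAt (fun c => ∫ y, Ai φ M ρ i (c, y)) (∫ y, D1 (Ai φ M ρ i) c y) c := by
  obtain ⟨R, hR⟩ := supp_Ai (M := M) hφ1 ρ c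
  exact param_main (contDiff_Ai hφ hM ρ i) c (hR i)

lemma Ai_translate (φ M : ℝ → ℝ) (ρ : Fin n → ℝ) (i : Fin n) (c : Fin n → V) (w y : V) :
    Ai φ M ρ i (c + (fun _ => w), y) = Ai φ M ρ i (c, y - w) := by
  have h : ∀ j, pw ρ j (c + (fun _ => w), y) = pw ρ j (c, y - w) := by
    intro j
    simp only [pw, Pi.add_apply]
    congr 3
    abel
  simp only [Ai, sg, h]

lemma translate_zero {φ M : ℝ → ℝ} (hφ : ContDiff ℝ 2 φ) (hM : ContDiff ℝ 2 M)
    (hφ1 : ∀ t, 1 ≤ t → φ t = 0) (ρ : Fin n → ℝ) (c : Fin n → V) (i : Fin n) (w : V) :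
    (∫ y, D1 (Ai φ M ρ i) c y) (fun _ => w) = 0 := by
  have h1 := (param_Ai hφ hM hφ1 ρ c i).2.2
  have hline : HasDerivAt (fun s : ℝ => c + s • (fun _ : Fin n => w)) (fun _ => w) 0 := by
    have h2 : HasDerivAt (fun s : ℝ => s • (fun _ : Fin n => w)) ((1 : ℝ) • (fun _ : Fin n => w)) 0 :=
      (hasDerivAt_id (0 : ℝ)).smul_const _
    simpa using h2.const_add c
  have h0 : c + (0 : ℝ) • (fun _ : Fin n => w) = c := by simp
  have h3 : HasDerivAt (fun s : ℝ => ∫ y, Ai φ M ρ i (c + s • (fun _ : Fin n => w), y))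
      ((∫ y, D1 (Ai φ M ρ i) c y) (fun _ => w)) 0 := by
    have hF := h1
    rw [← h0] at hF
    have := hF.comp_hasDerivAt (0 : ℝ) hline
    rw [h0] at this
    exact this
  have h4 : (fun s : ℝ => ∫ y, Ai φ M ρ i (c + s • (fun _ : Fin n => w), y))
      = fun _ => ∫ y, Ai φ M ρ i (c, y) := by
    funext s
    have : (s • (fun _ : Fin n => w)) = (fun _ : Fin n => s • w) := rfl
    rw [this]
    simp_rw [Ai_translate]
    exact integral_sub_right_eq_self (fun y => Ai φ M ρ i (c, y)) (s • w)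
  rw [h4] at h3
  exact h3.unique (hasDerivAt_const _ _)

lemma hasFDerivAt_J {φ M : ℝ → ℝ} (hφ : ContDiff ℝ 2 φ) (hM : ContDiff ℝ 2 M)
    (hφ1 : ∀ t, 1 ≤ t → φ t = 0) (ρ : Fin n → ℝ) (c : Fin n → V) :
    HasFDerivAt (J (V := V) φ M ρ) (∑ i, ∫ y, D1 (Ai φ M ρ i) c y) c := by
  unfold J
  exact HasFDerivAt.fun_sum fun i _ => (param_Ai hφ hM hφ1 ρ c i).2.2

lemma deriv_J_nonneg {φ M : ℝ → ℝ} (hφ : ContDiff ℝ 2 φ) (hM : ContDiff ℝ 2 M)
    (hφ1 : ∀ t, 1 ≤ t → φ t = 0) (hφ' : ∀ t, deriv φ t ≤ 0)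
    (hM'' : ∀ s, deriv (deriv M) s ≤ 0) (ρ : Fin n → ℝ) (c v : Fin n → V)
    (hcv : ∀ i j, ⟪c i - c j, v i - v j⟫ ≤ 0) :
    0 ≤ (∑ i, ∫ y, D1 (Ai φ M ρ i) c y) v := by
  have h1 : (∑ i, ∫ y, D1 (Ai φ M ρ i) c y) v
      = ∫ y, ∑ i, (dA φ M ρ i c v y - dA φ M ρ i c (fun _ => v i) y) := by
    rw [_root_.sum_apply, integral_finsetSum]
    · refine Finset.sum_congr rfl fun i _ => ?_
      have h2 : (∫ y, D1 (Ai φ M ρ i) c y) v
          = (∫ y, D1 (Ai φ M ρ i) c y) v - (∫ y, D1 (Ai φ M ρ i) c y) (fun _ => v i) := by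
        rw [translate_zero hφ hM hφ1 ρ c i (v i), sub_zero]
      have hint := (param_Ai hφ hM hφ1 ρ c i).1
      rw [h2, ContinuousLinearMap.integral_apply hint, ContinuousLinearMap.integral_apply hint,
        ← integral_sub (hint.apply_continuousLinearMap _) (hint.apply_continuousLinearMap _)]
      simp_rw [D1_Ai hφ hM]
    · intro i _
      have hint := (param_Ai hφ hM hφ1 ρ c i).1
      have h3 := (hint.apply_continuousLinearMap v).sub (hint.apply_continuousLinearMap (fun _ => v i))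
      refine h3.congr (Filter.Eventually.of_forall fun y => ?_)
      simp only [Pi.sub_apply, D1_Ai hφ hM]
  rw [h1]
  exact integral_nonneg fun y => pointwise_nonneg hφ' hM'' ρ c v hcv y

/-- `J` does not decrease along a contracting path. -/
theorem J_mono {φ M : ℝ → ℝ} (hφ : ContDiff ℝ 2 φ) (hM : ContDiff ℝ 2 M)
    (hφ1 : ∀ t, 1 ≤ t → φ t = 0) (hφ' : ∀ t, deriv φ t ≤ 0)
    (hM'' : ∀ s, deriv (deriv M) s ≤ 0) (ρ : Fin n → ℝ) (c : ℝ → Fin n → V)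
    (hc : ContinuousOn c (Icc 0 1)) (hd : ∀ t ∈ Ioo (0 : ℝ) 1, DifferentiableAt ℝ c t)
    (hdist : ∀ i j, AntitoneOn (fun t => ‖c t i - c t j‖ ^ 2) (Icc 0 1)) :
    J φ M ρ (c 0) ≤ J φ M ρ (c 1) := by
  have hJc : Continuous (J (V := V) φ M ρ) :=
    continuous_iff_continuousAt.2 fun c => (hasFDerivAt_J hφ hM hφ1 ρ c).continuousAt
  have hderiv : ∀ t ∈ Ioo (0 : ℝ) 1, HasDerivAt (fun t => J φ M ρ (c t))
      ((∑ i, ∫ y, D1 (Ai φ M ρ i) (c t) y) (deriv c t)) t := by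
    intro t ht
    exact (hasFDerivAt_J hφ hM hφ1 ρ (c t)).comp_hasDerivAt t (hd t ht).hasDerivAt
  have hmono : MonotoneOn (fun t => J φ M ρ (c t)) (Icc 0 1) := by
    refine monotoneOn_of_deriv_nonneg (convex_Icc 0 1) (hJc.comp_continuousOn hc) ?_ ?_
    · rw [interior_Icc]
      exact fun t ht => (hderiv t ht).differentiableAt.differentiableWithinAt
    · rw [interior_Icc]
      intro t ht
      rw [(hderiv t ht).deriv]
      refine deriv_J_nonneg hφ hM hφ1 hφ' hM'' ρ (c t) (deriv c t) fun i j => ?_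
      have hci : ∀ i, HasDerivAt (fun s => c s i) (deriv c t i) t := fun i =>
        (hasDerivAt_pi.1 (hd t ht).hasDerivAt) i
      have h1 : HasDerivAt (fun s => ‖c s i - c s j‖ ^ 2)
          (2 * ⟪c t i - c t j, deriv c t i - deriv c t j⟫) t :=
        ((hci i).fun_sub (hci j)).norm_sq
      have h2 : deriv (fun s => ‖c s i - c s j‖ ^ 2) t ≤ 0 := by
        have h3 : AntitoneOn (fun s => ‖c s i - c s j‖ ^ 2) (Ioo 0 1) :=
          (hdist i j).mono Ioo_subset_Icc_self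
        have h4 : derivWithin (fun s => ‖c s i - c s j‖ ^ 2) (Ioo 0 1) t ≤ 0 :=
          h3.derivWithin_nonpos
        rwa [derivWithin_of_isOpen isOpen_Ioo ht] at h4
      rw [h1.deriv] at h2
      linarith
  exact hmono (left_mem_Icc.2 zero_le_one) (right_mem_Icc.2 zero_le_one) zero_le_one

end Pool.Agent.H65k
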