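import Mathlib

set_option autoImplicit false

/-!
Differentiation under the integral sign for a jointly `C¹` function with locally uniformly compact
support in the integration variable.
-/

open MeasureTheory Metric Set Topology

namespace Pool.Agent.H65k

variable {H V : Type*} [NormedAddCommGroup H] [NormedSpace ℝ H] [ProperSpace H]
  [NormedAddCommGroup V] [NormedSpace ℝ V] [FiniteDimensional ℝ V]
  [MeasureSpace V] [BorelSpace V] [IsFiniteMeasureOnCompacts (volume : Measure V)]

/-- derivative of `F` in the first variable. -/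
noncomputable def D1 (F : H × V → ℝ) (c : H) (y : V) : H →L[ℝ] ℝ :=
  (fderiv ℝ F (c, y)).comp (ContinuousLinearMap.inl ℝ H V)

omit [ProperSpace H] [FiniteDimensional ℝ V] [MeasureSpace V] [BorelSpace V]
  [IsFiniteMeasureOnCompacts (volume : Measure V)] in
lemma hasFDerivAt_D1 {F : H × V → ℝ} (hF : ContDiff ℝ 1 F) (c : H) (y : V) :
    HasFDerivAt (fun c => F (c, y)) (D1 F c y) c := by
  have h1 : HasFDerivAt F (fderiv ℝ F (c, y)) (c, y) :=
    (hF.differentiable (by norm_num) (c, y)).hasFDerivAt
  have h2 : HasFDerivAt (fun c : H => (c, y)) (ContinuousLinearMap.inl ℝ H V) c :=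
    hasFDerivAt_prodMk_left c y
  exact h1.comp c h2

omit [ProperSpace H] [FiniteDimensional ℝ V] [MeasureSpace V] [BorelSpace V]
  [IsFiniteMeasureOnCompacts (volume : Measure V)] in
lemma continuous_D1 {F : H × V → ℝ} (hF : ContDiff ℝ 1 F) :
    Continuous (fun z : H × V => D1 F z.1 z.2) := by
  have h1 : Continuous (fderiv ℝ F) := hF.continuous_fderiv (by norm_num)
  exact h1.clm_comp continuous_const

theorem param_main {F : H × V → ℝ} (hF : ContDiff ℝ 1 F) (c₀ : H) {R : ℝ}
    (hsupp : ∀ c ∈ closedBall c₀ 1, ∀ y : V, R < ‖y‖ → F (c, y) = 0) :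
    Integrable (D1 F c₀) volume ∧ Integrable (fun y => F (c₀, y)) volume ∧
      HasFDerivAt (fun c => ∫ y, F (c, y)) (∫ y, D1 F c₀ y) c₀ := by
  have hD0 : ∀ c ∈ ball c₀ 1, ∀ y : V, R < ‖y‖ → D1 F c y = 0 := by
    intro c hc y hy
    have h1 : (fun c => F (c, y)) =ᶠ[𝓝 c] fun _ => (0 : ℝ) := by
      filter_upwards [isOpen_ball.mem_nhds hc] with c' hc'
      exact hsupp c' (ball_subset_closedBall hc') y hy
    have h2 : HasFDerivAt (fun c => F (c, y)) (0 : H →L[ℝ] ℝ) c :=
      (hasFDerivAt_const (0 : ℝ) c).congr_of_eventuallyEq h1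
    exact (hasFDerivAt_D1 hF c y).unique h2
  have hcont := continuous_D1 hF
  obtain ⟨C, hC⟩ := ((isCompact_closedBall c₀ 1).prod (isCompact_closedBall (0 : V) R)).exists_bound_of_continuousOn
    (f := fun z : H × V => D1 F z.1 z.2) hcont.continuousOn
  have hbint : Integrable ((closedBall (0 : V) R).indicator (fun _ => |C|)) volume := by
    rw [integrable_indicator_iff isClosed_closedBall.measurableSet]
    exact integrableOn_const (isCompact_closedBall (0 : V) R).measure_lt_top.ne
  have hbound : ∀ y : V, ∀ c ∈ ball c₀ 1, ‖D1 F c y‖ ≤ (closedBall (0 : V) R).indicator (fun _ => |C|) y := by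
    intro y c hc
    by_cases hy : R < ‖y‖
    · rw [hD0 c hc y hy, norm_zero]
      exact indicator_nonneg (fun _ _ => abs_nonneg C) y
    · have hy' : y ∈ closedBall (0 : V) R := by simpa using not_lt.1 hy
      rw [indicator_of_mem hy']
      exact (hC (c, y) ⟨ball_subset_closedBall hc, hy'⟩).trans (le_abs_self C)
  have hmem : ball c₀ 1 ∈ 𝓝 c₀ := ball_mem_nhds c₀ one_pos
  have hFc : ∀ c, Continuous (fun y => F (c, y)) := fun c =>
    hF.continuous.comp (by fun_prop)
  have hDc : Continuous (D1 F c₀) := hcont.comp (by fun_prop : Continuous fun y : V => (c₀, y))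
  have hFint : Integrable (fun y => F (c₀, y)) volume := by
    refine (hFc c₀).integrable_of_hasCompactSupport ?_
    refine HasCompactSupport.intro (isCompact_closedBall (0 : V) R) ?_
    intro y hy
    exact hsupp c₀ (mem_closedBall_self zero_le_one) y (by simpa using hy)
  have hDint : Integrable (D1 F c₀) volume := by
    refine Integrable.mono' hbint hDc.aestronglyMeasurable ?_
    exact Filter.Eventually.of_forall fun y => hbound y c₀ (mem_ball_self one_pos)
  refine ⟨hDint, hFint, ?_⟩
  refine hasFDerivAt_integral_of_dominated_of_fderiv_le (F := fun c y => F (c, y)) (F' := fun c y => D1 F c y)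
    (bound := (closedBall (0 : V) R).indicator (fun _ => |C|)) hmem ?_ hFint ?_ ?_ hbint ?_
  · exact Filter.Eventually.of_forall fun c => (hFc c).aestronglyMeasurable
  · exact hDc.aestronglyMeasurable
  · exact Filter.Eventually.of_forall fun y c hc => hbound y c hc
  · exact Filter.Eventually.of_forall fun y c _ => hasFDerivAt_D1 hF c y

end Pool.Agent.H65k
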