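import Pool.Agent.H65k.Mono

set_option autoImplicit false
set_option linter.unusedSectionVars false

/-!
Isometry invariance of `J`, and contracting paths for configurations of small joint rank.
-/

open MeasureTheory Metric Set Topology
open scoped RealInnerProductSpace

namespace Pool.Agent.H65k

section isom

variable {n : ℕ} {V V' : Type*} [NormedAddCommGroup V] [InnerProductSpace ℝ V]
  [FiniteDimensional ℝ V] [MeasurableSpace V] [BorelSpace V]
  [NormedAddCommGroup V'] [InnerProductSpace ℝ V']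
  [FiniteDimensional ℝ V'] [MeasurableSpace V'] [BorelSpace V']

lemma J_isometry (φ M : ℝ → ℝ) (ρ : Fin n → ℝ) (c : Fin n → V) (U : V ≃ₗᵢ[ℝ] V') :
    J φ M ρ (fun j => U (c j)) = J φ M ρ c := by
  unfold J
  refine Finset.sum_congr rfl fun i _ => ?_
  rw [← U.measurePreserving.integral_comp U.toHomeomorph.measurableEmbedding]
  refine integral_congr_ae (Filter.Eventually.of_forall fun y => ?_)
  have h : ∀ j, pw ρ j ((fun j => U (c j)), U y) = pw ρ j (c, y) := by
    intro j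
    simp only [pw]
    rw [← map_sub, U.norm_map]
  simp only [Ai, sg, h]

lemma J_translate (φ M : ℝ → ℝ) (ρ : Fin n → ℝ) (c : Fin n → V) (w : V) :
    J φ M ρ (fun j => c j + w) = J φ M ρ c := by
  unfold J
  refine Finset.sum_congr rfl fun i _ => ?_
  have : ∀ y, Ai φ M ρ i ((fun j => c j + w), y) = Ai φ M ρ i (c, y - w) := fun y =>
    Ai_translate φ M ρ i c w y
  simp_rw [this]
  exact integral_sub_right_eq_self (fun y => Ai φ M ρ i (c, y)) w

end isom

section linalg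

variable {Z X V : Type*} [NormedAddCommGroup Z] [InnerProductSpace ℝ Z] [FiniteDimensional ℝ Z]
  [NormedAddCommGroup X] [InnerProductSpace ℝ X] [FiniteDimensional ℝ X]
  [NormedAddCommGroup V] [InnerProductSpace ℝ V] [FiniteDimensional ℝ V]

/-- simultaneous diagonalisation of the two forms `‖A z‖²`, `‖B z‖²`. -/
lemma exists_diag (A B : Z →ₗ[ℝ] X) (h : ∀ z, ‖A z‖ ^ 2 + ‖B z‖ ^ 2 = ‖z‖ ^ 2) :
    ∃ (a : Fin (Module.finrank ℝ Z) → ℝ) (f : OrthonormalBasis (Fin (Module.finrank ℝ Z)) ℝ Z),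
      (∀ j, 0 ≤ a j ∧ a j ≤ 1) ∧ (∀ z, ‖A z‖ ^ 2 = ∑ j, a j * ⟪f j, z⟫ ^ 2) ∧
      (∀ z, ‖B z‖ ^ 2 = ∑ j, (1 - a j) * ⟪f j, z⟫ ^ 2) := by
  set T : Z →ₗ[ℝ] Z := (LinearMap.adjoint A).comp A with hT
  have hTi : ∀ x y, ⟪T x, y⟫ = ⟪A x, A y⟫ := by
    intro x y
    rw [hT, LinearMap.comp_apply, LinearMap.adjoint_inner_left]
  have hsymm : T.IsSymmetric := by
    intro x y
    rw [hTi, ← real_inner_comm x (T y), hTi, real_inner_comm]
  set f := hsymm.eigenvectorBasis rfl with hf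
  set a := hsymm.eigenvalues rfl with ha
  have hTf : ∀ j, T (f j) = a j • f j := fun j => hsymm.apply_eigenvectorBasis rfl j
  have hAz : ∀ z, ‖A z‖ ^ 2 = ∑ j, a j * ⟪f j, z⟫ ^ 2 := by
    intro z
    have h1 : T z = ∑ j, (a j * ⟪f j, z⟫) • f j := by
      conv_lhs => rw [← f.sum_repr' z]
      rw [map_sum]
      refine Finset.sum_congr rfl fun j _ => ?_
      rw [map_smul, hTf, smul_smul, mul_comm]
    rw [← real_inner_self_eq_norm_sq, ← hTi, h1, sum_inner]
    refine Finset.sum_congr rfl fun j _ => ?_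
    rw [inner_smul_left]
    simp
    ring
  have hBz : ∀ z, ‖B z‖ ^ 2 = ∑ j, (1 - a j) * ⟪f j, z⟫ ^ 2 := by
    intro z
    have h1 : ‖z‖ ^ 2 = ∑ j, ⟪f j, z⟫ ^ 2 := by
      have := f.sum_sq_norm_inner_right z
      rw [← this]
      refine Finset.sum_congr rfl fun j _ => ?_
      rw [Real.norm_eq_abs, sq_abs]
    have h2 : ‖B z‖ ^ 2 = ‖z‖ ^ 2 - ‖A z‖ ^ 2 := by linarith [h z]
    rw [h2, h1, hAz, ← Finset.sum_sub_distrib]
    exact Finset.sum_congr rfl fun j _ => by ring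
  have hff : ∀ j, ∀ g : Fin (Module.finrank ℝ Z) → ℝ, ∑ k, g k * ⟪f k, f j⟫ ^ 2 = g j := by
    intro j g
    rw [Finset.sum_eq_single j]
    · rw [real_inner_self_eq_norm_sq, f.orthonormal.1 j]; simp
    · intro k _ hk
      rw [f.orthonormal.2 hk]; simp
    · simp
  refine ⟨a, f, fun j => ⟨?_, ?_⟩, hAz, hBz⟩
  · have := hAz (f j)
    rw [hff j a] at this
    rw [← this]; positivity
  · have := hBz (f j)
    rw [hff j (fun k => 1 - a k)] at this
    have h3 : 0 ≤ 1 - a j := by rw [← this]; positivity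
    linarith

/-- the interpolating family of linear maps. -/
lemma exists_path (A B : Z →ₗ[ℝ] X) (h : ∀ z, ‖A z‖ ^ 2 + ‖B z‖ ^ 2 = ‖z‖ ^ 2)
    (hdim : Module.finrank ℝ Z ≤ Module.finrank ℝ V) :
    ∃ T : ℝ → (Z →ₗ[ℝ] V), (∀ t ∈ Icc (0 : ℝ) 1, ∀ z,
        ‖T t z‖ ^ 2 = (1 - t) * ‖A z‖ ^ 2 + t * ‖B z‖ ^ 2) ∧
      (∀ z, Continuous (fun t => T t z)) ∧
      (∀ z, ∀ t ∈ Ioo (0 : ℝ) 1, DifferentiableAt ℝ (fun t => T t z) t) := by
  obtain ⟨a, f, ha, hA, hB⟩ := exists_diag A B h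
  set b := stdOrthonormalBasis ℝ V with hb
  set e : Fin (Module.finrank ℝ Z) → V := fun j => b (Fin.castLE hdim j) with he
  have hon : Orthonormal ℝ e := b.orthonormal.comp _ (Fin.castLE_injective hdim)
  set r : ℝ → Fin (Module.finrank ℝ Z) → ℝ := fun t j => √((1 - t) * a j + t * (1 - a j)) with hr
  let T : ℝ → (Z →ₗ[ℝ] V) := fun t =>
    { toFun := fun z => ∑ j, (r t j * ⟪f j, z⟫) • e j
      map_add' := by
        intro x y
        rw [← Finset.sum_add_distrib]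
        refine Finset.sum_congr rfl fun j _ => ?_
        rw [inner_add_right, ← add_smul]; congr 1; ring
      map_smul' := by
        intro s x
        rw [Finset.smul_sum]
        refine Finset.sum_congr rfl fun j _ => ?_
        rw [inner_smul_right, smul_smul]; congr 1; simp; ring }
  have hTz : ∀ t z, T t z = ∑ j, (r t j * ⟪f j, z⟫) • e j := fun t z => rfl
  refine ⟨T, ?_, ?_, ?_⟩
  · intro t ht z
    rw [hTz, ← real_inner_self_eq_norm_sq, hon.inner_sum, hA, hB, Finset.mul_sum, Finset.mul_sum,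
      ← Finset.sum_add_distrib]
    refine Finset.sum_congr rfl fun j _ => ?_
    have h0 : 0 ≤ (1 - t) * a j + t * (1 - a j) := by
      have h1 := (ha j).1
      have h2 := (ha j).2
      have h3 := ht.1
      have h4 := ht.2
      have := mul_nonneg (sub_nonneg.2 h4) h1
      have := mul_nonneg h3 (sub_nonneg.2 h2)
      linarith
    have h1 : r t j ^ 2 = (1 - t) * a j + t * (1 - a j) := Real.sq_sqrt h0
    have h2 : (starRingEnd ℝ) (r t j * ⟪f j, z⟫) * (r t j * ⟪f j, z⟫) = r t j ^ 2 * ⟪f j, z⟫ ^ 2 := by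
      simp; ring
    rw [h2, h1]; ring
  · intro z
    simp only [hTz]
    refine continuous_finsetSum _ fun j _ => ?_
    simp only [hr]
    fun_prop
  · intro z t ht
    simp only [hTz]
    refine DifferentiableAt.fun_sum fun j _ => ?_
    refine DifferentiableAt.smul_const ?_ _
    refine DifferentiableAt.mul_const ?_ _
    simp only [hr]
    refine DifferentiableAt.sqrt (by fun_prop) ?_
    have h1 := (ha j).1
    have h2 := (ha j).2
    have h3 := ht.1
    have h4 := ht.2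
    rcases h1.eq_or_lt with h5 | h5
    · rw [← h5]; simp; exact h3.ne'
    · have := mul_pos (sub_pos.2 h4) h5
      have := mul_nonneg h3.le (sub_nonneg.2 h2)
      linarith

/-- two families of vectors with the same norms of all combinations are congruent. -/
lemma exists_congr (A B : Z →ₗ[ℝ] V) (h : ∀ z, ‖A z‖ = ‖B z‖) :
    ∃ U : V ≃ₗᵢ[ℝ] V, ∀ z, U (A z) = B z := by
  have hker : LinearMap.ker A ≤ LinearMap.ker B := by
    intro z hz
    rw [LinearMap.mem_ker] at hz ⊢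
    rw [← norm_eq_zero, ← h z, hz, norm_zero]
  let L0 : LinearMap.range A →ₗ[ℝ] V :=
    ((LinearMap.ker A).liftQ B hker).comp (A.quotKerEquivRange.symm : LinearMap.range A →ₗ[ℝ] _)
  have hL0 : ∀ z (hz : A z ∈ LinearMap.range A), L0 ⟨A z, hz⟩ = B z := by
    intro z hz
    simp only [L0, LinearMap.comp_apply, LinearEquiv.coe_coe]
    rw [LinearMap.quotKerEquivRange_symm_apply_image]
    simp
  let L : LinearMap.range A →ₗᵢ[ℝ] V :=
    { toLinearMap := L0
      norm_map' := by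
        rintro ⟨v, z, rfl⟩
        rw [hL0 z]
        exact (h z).symm }
  refine ⟨L.extend.toLinearIsometryEquiv rfl, fun z => ?_⟩
  rw [LinearIsometry.toLinearIsometryEquiv_apply]
  have := L.extend_apply ⟨A z, z, rfl⟩
  rw [this]
  exact hL0 z _

end linalg

section place

variable {n : ℕ} {X V : Type*} [NormedAddCommGroup X] [InnerProductSpace ℝ X]
  [FiniteDimensional ℝ X]
  [NormedAddCommGroup V] [InnerProductSpace ℝ V]
  [FiniteDimensional ℝ V] [MeasurableSpace V] [BorelSpace V]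

/-- The span of the joint differences. -/
def jointSpan (p q : Fin n → X) : Submodule ℝ (X × X) :=
  Submodule.span ℝ {z | ∃ i j, z = (p i - p j, q i - q j)}

theorem J_contract {φ M : ℝ → ℝ} (hφ : ContDiff ℝ 2 φ) (hM : ContDiff ℝ 2 M)
    (hφ1 : ∀ t, 1 ≤ t → φ t = 0) (hφ' : ∀ t, deriv φ t ≤ 0)
    (hM'' : ∀ s, deriv (deriv M) s ≤ 0) (ρ : Fin n → ℝ) (ι : X →ₗᵢ[ℝ] V)
    (p q : Fin n → X) (hpq : ∀ i j, ‖q i - q j‖ ≤ ‖p i - p j‖)
    (hdim : Module.finrank ℝ (jointSpan p q) ≤ Module.finrank ℝ V) (i₀ : Fin n) :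
    J φ M ρ (fun i => ι (p i)) ≤ J φ M ρ (fun i => ι (q i)) := by
  set e : (X × X) ≃ₗ[ℝ] WithLp 2 (X × X) := (WithLp.linearEquiv 2 ℝ (X × X)).symm with he
  set S : Submodule ℝ (WithLp 2 (X × X)) := (jointSpan p q).map (e : (X × X) →ₗ[ℝ] _) with hS
  have hSdim : Module.finrank ℝ S = Module.finrank ℝ (jointSpan p q) :=
    LinearEquiv.finrank_map_eq e _
  let fs : WithLp 2 (X × X) →ₗ[ℝ] X :=
    (LinearMap.fst ℝ X X).comp (WithLp.linearEquiv 2 ℝ (X × X) : WithLp 2 (X × X) →ₗ[ℝ] X × X)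
  let sn : WithLp 2 (X × X) →ₗ[ℝ] X :=
    (LinearMap.snd ℝ X X).comp (WithLp.linearEquiv 2 ℝ (X × X) : WithLp 2 (X × X) →ₗ[ℝ] X × X)
  let A : S →ₗ[ℝ] X := fs.comp S.subtype
  let B : S →ₗ[ℝ] X := sn.comp S.subtype
  have hAB : ∀ z, ‖A z‖ ^ 2 + ‖B z‖ ^ 2 = ‖z‖ ^ 2 := by
    intro z
    have := WithLp.prod_norm_sq_eq_of_L2 (z : WithLp 2 (X × X))
    rw [Submodule.coe_norm, this]
    rfl
  have hdim' : Module.finrank ℝ S ≤ Module.finrank ℝ V := by rw [hSdim]; exact hdim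
  obtain ⟨T, hT, hTc, hTd⟩ := exists_path (V := V) A B hAB hdim'
  have hmem : ∀ i j, e (p i - p j, q i - q j) ∈ S := fun i j =>
    Submodule.mem_map_of_mem (Submodule.subset_span ⟨i, j, rfl⟩)
  let z : Fin n → S := fun i => ⟨e (p i - p i₀, q i - q i₀), hmem i i₀⟩
  have hA : ∀ i, A (z i) = p i - p i₀ := fun i => rfl
  have hB : ∀ i, B (z i) = q i - q i₀ := fun i => rfl
  set c : ℝ → Fin n → V := fun t i => T t (z i) with hc
  have hcont : ContinuousOn c (Icc 0 1) :=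
    (continuous_pi fun i => hTc (z i)).continuousOn
  have hdiff : ∀ t ∈ Ioo (0 : ℝ) 1, DifferentiableAt ℝ c t := fun t ht =>
    differentiableAt_pi.2 fun i => hTd (z i) t ht
  have hdist : ∀ i j, AntitoneOn (fun t => ‖c t i - c t j‖ ^ 2) (Icc 0 1) := by
    intro i j s hs t ht hst
    have h1 : ∀ t ∈ Icc (0 : ℝ) 1, ‖c t i - c t j‖ ^ 2
        = (1 - t) * ‖p i - p j‖ ^ 2 + t * ‖q i - q j‖ ^ 2 := by
      intro t ht
      have h2 : c t i - c t j = T t (z i - z j) := by simp only [hc, map_sub]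
      rw [h2, hT t ht, map_sub, map_sub, hA, hA, hB, hB]
      congr 3 <;> abel_nf
    simp only
    rw [h1 s hs, h1 t ht]
    have h3 : ‖q i - q j‖ ^ 2 ≤ ‖p i - p j‖ ^ 2 :=
      pow_le_pow_left₀ (norm_nonneg _) (hpq i j) 2
    nlinarith
  have hmono := J_mono hφ hM hφ1 hφ' hM'' ρ c hcont hdiff hdist
  have hend0 : J φ M ρ (c 0) = J φ M ρ (fun i => ι (p i)) := by
    obtain ⟨U, hU⟩ := exists_congr (T 0) (ι.toLinearMap.comp A) (by
      intro x
      have h1 := hT 0 (left_mem_Icc.2 zero_le_one) x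
      have h2 : ‖T 0 x‖ ^ 2 = ‖A x‖ ^ 2 := by rw [h1]; ring
      have h3 : ‖T 0 x‖ = ‖A x‖ := by
        rwa [sq_eq_sq₀ (norm_nonneg _) (norm_nonneg _)] at h2
      rw [h3]
      exact (ι.norm_map _).symm)
    rw [← J_isometry φ M ρ (c 0) U, ← J_translate φ M ρ (fun j => U (c 0 j)) (ι (p i₀))]
    congr 1
    funext j
    have h4 : U (c 0 j) = ι (A (z j)) := hU (z j)
    rw [h4, hA, ← map_add]
    congr 1
    abel
  have hend1 : J φ M ρ (c 1) = J φ M ρ (fun i => ι (q i)) := by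
    obtain ⟨U, hU⟩ := exists_congr (T 1) (ι.toLinearMap.comp B) (by
      intro x
      have h1 := hT 1 (right_mem_Icc.2 zero_le_one) x
      have h2 : ‖T 1 x‖ ^ 2 = ‖B x‖ ^ 2 := by rw [h1]; ring
      have h3 : ‖T 1 x‖ = ‖B x‖ := by
        rwa [sq_eq_sq₀ (norm_nonneg _) (norm_nonneg _)] at h2
      rw [h3]
      exact (ι.norm_map _).symm)
    rw [← J_isometry φ M ρ (c 1) U, ← J_translate φ M ρ (fun j => U (c 1 j)) (ι (q i₀))]
    congr 1
    funext j
    have h4 : U (c 1 j) = ι (B (z j)) := hU (z j)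
    rw [h4, hB, ← map_add]
    congr 1
    abel
  rw [← hend0, ← hend1]
  exact hmono

end place

end Pool.Agent.H65k
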