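import Pool.Agent.H65k.Place

set_option autoImplicit false
set_option linter.unusedSectionVars false

/-!
The value of `J` on configurations lying in the factor `X` of `X × ℝ²`.
-/

open MeasureTheory Metric Set Topology Filter
open scoped RealInnerProductSpace

namespace Pool.Agent.H65k

/-- The Euclidean plane. -/
abbrev W2 := EuclideanSpace ℝ (Fin 2)

variable {n : ℕ} {X : Type*} [NormedAddCommGroup X] [InnerProductSpace ℝ X]
  [FiniteDimensional ℝ X] [MeasurableSpace X] [BorelSpace X]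

/-- embedding of `X` in `X × ℝ²`. -/
noncomputable def iota (X : Type*) [NormedAddCommGroup X] [InnerProductSpace ℝ X] :
    X →ₗᵢ[ℝ] WithLp 2 (X × W2) where
  toFun x := WithLp.toLp 2 (x, 0)
  map_add' x y := by
    rw [← WithLp.toLp_add]; simp
  map_smul' s x := by
    rw [RingHom.id_apply, ← WithLp.toLp_smul]; simp
  norm_map' x := by
    have h := WithLp.prod_norm_sq_eq_of_L2 (WithLp.toLp 2 ((x, 0) : X × W2))
    have h2 : ‖WithLp.toLp 2 ((x, 0) : X × W2)‖ ^ 2 = ‖x‖ ^ 2 := by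
      rw [h]; simp
    rwa [sq_eq_sq₀ (norm_nonneg _) (norm_nonneg _)] at h2

lemma pw_iota (ρ : Fin n → ℝ) (i : Fin n) (p : Fin n → X) (x : X) (w : W2) :
    pw ρ i ((fun i => iota X (p i)), WithLp.toLp 2 (x, w)) = (‖x - p i‖ ^ 2 - ρ i ^ 2) + ‖w‖ ^ 2 := by
  have h : WithLp.toLp 2 (x, w) - iota X (p i) = WithLp.toLp 2 ((x - p i, w) : X × W2) := by
    show WithLp.toLp 2 (x, w) - WithLp.toLp 2 ((p i, 0) : X × W2) = _
    rw [← WithLp.toLp_sub]; simp
  simp only [pw]
  rw [h, WithLp.prod_norm_sq_eq_of_L2]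
  simp only [WithLp.toLp_fst, WithLp.toLp_snd]
  ring

/-- one-dimensional fundamental theorem of calculus. -/
lemma radial_int {φ M : ℝ → ℝ} (hφ : ContDiff ℝ 2 φ) (hM : ContDiff ℝ 2 M)
    (hφ1 : ∀ t, 1 ≤ t → φ t = 0) (g : Fin n → ℝ) :
    ∫ r in Ioi (0 : ℝ), r * (∑ i, deriv M (∑ j, φ (g j + r ^ 2)) * deriv φ (g i + r ^ 2))
      = (M 0 - M (∑ j, φ (g j))) / 2 := by
  set h : ℝ → ℝ := fun r => M (∑ j, φ (g j + r ^ 2)) / 2 with hh
  have hφd : ∀ t, HasDerivAt φ (deriv φ t) t := fun t =>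
    (hφ.differentiable (by norm_num) t).hasDerivAt
  have hMd : ∀ t, HasDerivAt M (deriv M t) t := fun t =>
    (hM.differentiable (by norm_num) t).hasDerivAt
  have hderiv : ∀ r : ℝ, HasDerivAt h
      (r * (∑ i, deriv M (∑ j, φ (g j + r ^ 2)) * deriv φ (g i + r ^ 2))) r := by
    intro r
    have h1 : ∀ j, HasDerivAt (fun r : ℝ => g j + r ^ 2) (2 * r) r := by
      intro j
      have := (hasDerivAt_pow 2 r).const_add (g j)
      simpa using this
    have h2 : ∀ j, HasDerivAt (fun r : ℝ => φ (g j + r ^ 2)) (deriv φ (g j + r ^ 2) * (2 * r)) r :=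
      fun j => hasDerivAt_comp_of (g := fun r : ℝ => g j + r ^ 2) (hφd _) (h1 j)
    have h3 : HasDerivAt (fun r : ℝ => ∑ j, φ (g j + r ^ 2)) (∑ j, deriv φ (g j + r ^ 2) * (2 * r)) r :=
      HasDerivAt.fun_sum fun j _ => h2 j
    have h4 := hasDerivAt_comp_of (g := fun r : ℝ => ∑ j, φ (g j + r ^ 2)) (hMd _) h3
    have h5 := h4.div_const 2
    refine h5.congr_deriv ?_
    rw [← Finset.sum_mul, ← Finset.mul_sum]
    ring
  obtain ⟨R, hR0, hR⟩ : ∃ R : ℝ, 0 < R ∧ ∀ r, R ≤ r → ∀ j, 1 < g j + r ^ 2 := by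
    refine ⟨1 + ∑ j, |g j| + 1, ?_, ?_⟩
    · have : 0 ≤ ∑ j, |g j| := Finset.sum_nonneg fun _ _ => abs_nonneg _
      linarith
    · intro r hr j
      have h0 : 0 ≤ ∑ j, |g j| := Finset.sum_nonneg fun _ _ => abs_nonneg _
      have h1 : |g j| ≤ ∑ j, |g j| :=
        Finset.single_le_sum (f := fun i => |g i|) (fun _ _ => abs_nonneg _) (Finset.mem_univ j)
      have h2 := neg_abs_le (g j)
      nlinarith
  have hcontF : Continuous (fun r : ℝ =>
      r * (∑ i, deriv M (∑ j, φ (g j + r ^ 2)) * deriv φ (g i + r ^ 2))) := by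
    have hM1 : Continuous (deriv M) := (contDiff_deriv_of hM).continuous
    have hφ1' : Continuous (deriv φ) := (contDiff_deriv_of hφ).continuous
    have hφ0 : Continuous φ := hφ.continuous
    fun_prop
  have hint : IntegrableOn (fun r : ℝ =>
      r * (∑ i, deriv M (∑ j, φ (g j + r ^ 2)) * deriv φ (g i + r ^ 2))) (Ioi 0) := by
    refine (hcontF.integrable_of_hasCompactSupport ?_).integrableOn
    refine HasCompactSupport.intro (isCompact_closedBall (0 : ℝ) R) ?_
    intro r hr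
    have hr' : R < |r| := by simpa using hr
    have : ∀ i, deriv φ (g i + r ^ 2) = 0 := by
      intro i
      rw [← sq_abs]
      exact deriv_zero_of hφ1 (hR _ hr'.le i)
    simp [this]
  have hlim : Tendsto h atTop (𝓝 (M 0 / 2)) := by
    refine tendsto_const_nhds.congr' ?_
    filter_upwards [eventually_ge_atTop R] with r hr
    simp only [hh]
    congr 2
    symm
    exact Finset.sum_eq_zero fun j _ => hφ1 _ (hR r hr j).le
  have := integral_Ioi_of_hasDerivAt_of_tendsto (hderiv 0).continuousAt.continuousWithinAt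
    (fun r _ => hderiv r) hint hlim
  rw [this]
  simp only [hh]
  simp
  ring

/-- area of the unit disc. -/
noncomputable def kap : ℝ := (volume : Measure W2).real (ball 0 1)

lemma kap_pos : 0 < kap := by
  unfold kap
  exact ENNReal.toReal_pos (measure_ball_pos _ _ one_pos).ne' measure_ball_lt_top.ne

lemma plane_int {φ M : ℝ → ℝ} (hφ : ContDiff ℝ 2 φ) (hM : ContDiff ℝ 2 M)
    (hφ1 : ∀ t, 1 ≤ t → φ t = 0) (g : Fin n → ℝ) :
    ∫ w : W2, (∑ i, deriv M (∑ j, φ (g j + ‖w‖ ^ 2)) * deriv φ (g i + ‖w‖ ^ 2))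
      = kap * (M 0 - M (∑ j, φ (g j))) := by
  have h := integral_fun_norm_addHaar (volume : Measure W2)
    (fun r => ∑ i, deriv M (∑ j, φ (g j + r ^ 2)) * deriv φ (g i + r ^ 2))
  rw [h]
  have h2 : Module.finrank ℝ W2 = 2 := by simp
  rw [h2]
  simp only [smul_eq_mul, nsmul_eq_mul, Nat.add_one_sub_one, pow_one]
  rw [radial_int hφ hM hφ1 g]
  unfold kap
  push_cast
  ring

theorem J_polar {φ M : ℝ → ℝ} (hφ : ContDiff ℝ 2 φ) (hM : ContDiff ℝ 2 M)
    (hφ1 : ∀ t, 1 ≤ t → φ t = 0) (ρ : Fin n → ℝ) (p : Fin n → X) :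
    J φ M ρ (fun i => iota X (p i))
      = kap * ∫ x : X, (M 0 - M (∑ j, φ (‖x - p j‖ ^ 2 - ρ j ^ 2))) := by
  set f : WithLp 2 (X × W2) → ℝ := fun y => ∑ i, Ai φ M ρ i ((fun i => iota X (p i)), y) with hf
  have hfi : ∀ i, Integrable (fun y => Ai φ M ρ i ((fun i => iota X (p i)), y)) volume := fun i =>
    (param_Ai hφ hM hφ1 ρ (fun i => iota X (p i)) i).2.1
  have hfint : Integrable f volume := integrable_finsetSum _ fun i _ => hfi i
  have h1 : J φ M ρ (fun i => iota X (p i)) = ∫ y, f y := by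
    unfold J
    rw [integral_finsetSum]
    exact fun i _ => hfi i
  have hmp := (WithLp.volume_preserving_symm_measurableEquiv_toLp_prod X W2).symm
  have h2 : ∫ z : X × W2, f (WithLp.toLp 2 z) = ∫ y, f y := hmp.integral_comp' f
  have h3 : Integrable (fun z : X × W2 => f (WithLp.toLp 2 z)) (volume : Measure (X × W2)) :=
    (hmp.integrable_comp_emb (MeasurableEquiv.measurableEmbedding _)).2 hfint
  rw [h1, ← h2]
  rw [show (volume : Measure (X × W2)) = (volume : Measure X).prod volume from rfl] at h3 ⊢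
  rw [integral_prod _ h3, ← integral_const_mul]
  refine integral_congr_ae (Eventually.of_forall fun x => ?_)
  simp only
  rw [← plane_int hφ hM hφ1 (fun j => ‖x - p j‖ ^ 2 - ρ j ^ 2)]
  refine integral_congr_ae (Eventually.of_forall fun w => ?_)
  simp only [hf, Ai, sg, pw_iota]

end Pool.Agent.H65k
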